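import Mathlib
import Pool.Agent.H892.ZL.Stm

set_option autoImplicit false

/-!
# Polynomial solutions of the Killing equations (S_N4 of project ZL)
-/

namespace Pool.Agent.H267.ZL

open Pool.Agent.H892.ZL MvPolynomial

/-- The restriction to the line through `x` in the direction `y`. -/
noncomputable def ev (x y : Fin 3 → ℂ) : SA →ₐ[ℂ] Polynomial ℂ :=
  aeval (Sum.elim (fun i => Polynomial.C (x i) + Polynomial.X * Polynomial.C (y i))
    (fun i => Polynomial.C (y i)))

/-- The restriction of a polynomial in `x` to a line. -/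
noncomputable def evx (x y : Fin 3 → ℂ) : MvPolynomial (Fin 3) ℂ →ₐ[ℂ] Polynomial ℂ :=
  aeval (fun i => Polynomial.C (x i) + Polynomial.X * Polynomial.C (y i))

lemma ev_inx (x y : Fin 3 → ℂ) (s : MvPolynomial (Fin 3) ℂ) : ev x y (inx s) = evx x y s := by
  simp only [ev, inx, evx, aeval_rename]
  rfl

lemma ev_vy (x y : Fin 3 → ℂ) (j : Fin 3) : ev x y (vy j) = Polynomial.C (y j) := by
  simp [ev, vy]

lemma eval_evx (x y : Fin 3 → ℂ) (s : MvPolynomial (Fin 3) ℂ) (t : ℂ) :
    (evx x y s).eval t = eval (fun i => x i + t * y i) s := by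
  have h : ((Polynomial.aeval t : Polynomial ℂ →ₐ[ℂ] ℂ).comp (evx x y)) =
      (aeval (fun i => x i + t * y i) : MvPolynomial (Fin 3) ℂ →ₐ[ℂ] ℂ) := by
    apply MvPolynomial.algHom_ext
    intro i
    simp [evx]
    ring
  have h2 := congrArg (fun f => f s) h
  simp only [AlgHom.comp_apply, Polynomial.coe_aeval_eq_eval] at h2
  exact h2

lemma nab_mul (p q : SA) : nab (p * q) = nab p * q + p * nab q := by
  simp only [nab, Derivation.leibniz, smul_eq_mul, Finset.sum_mul, Finset.mul_sum,
    ← Finset.sum_add_distrib]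
  apply Finset.sum_congr rfl
  intro i _
  ring

lemma nab_add (p q : SA) : nab (p + q) = nab p + nab q := by
  simp only [nab, map_add, mul_add, Finset.sum_add_distrib]

lemma derivative_ev (x y : Fin 3 → ℂ) (A : SA) :
    Polynomial.derivative (ev x y A) = ev x y (nab A) := by
  induction A using MvPolynomial.induction_on with
  | C a =>
    have h1 : ev x y (C a) = Polynomial.C a := by
      rw [ev, aeval_C]; rfl
    have h2 : nab (C a) = 0 := by simp [nab]
    rw [h1, h2, Polynomial.derivative_C, map_zero]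
  | add p q hp hq =>
    rw [map_add, Polynomial.derivative_add, hp, hq, nab_add, map_add]
  | mul_X p n hp =>
    have hX : Polynomial.derivative (ev x y (X n)) = ev x y (nab (X n)) := by
      rcases n with i | i
      · have h1 : ev x y (X (Sum.inl i)) =
            Polynomial.C (x i) + Polynomial.X * Polynomial.C (y i) := by
          simp [ev]
        have h2 : nab (X (Sum.inl i)) = vy i := by
          rw [nab, Finset.sum_eq_single i]
          · rw [pderiv_X_self, mul_one]
          · intro b _ hb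
            rw [pderiv_X_of_ne (by simpa using hb.symm), mul_zero]
          · simp
        rw [h1, h2, ev_vy]
        simp
      · have h1 : ev x y (X (Sum.inr i)) = Polynomial.C (y i) := by
          simp [ev]
        have h2 : nab (X (Sum.inr i)) = 0 := by
          rw [nab]
          apply Finset.sum_eq_zero
          intro b _
          rw [pderiv_X_of_ne (by simp), mul_zero]
        rw [h1, h2, Polynomial.derivative_C, map_zero]
    rw [map_mul, Polynomial.derivative_mul, hp, nab_mul, map_add, map_mul, map_mul, hX]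

/-- A polynomial `θ` with `θ(0) = 0` and `g θ' = g' θ`, `g(0) ≠ 0`, vanishes. -/
lemma wr_zero (g θ : Polynomial ℂ) (hg : g.eval 0 ≠ 0) (h0 : θ.eval 0 = 0)
    (h : g * Polynomial.derivative θ = Polynomial.derivative g * θ) : θ = 0 := by
  have hg0 : g.coeff 0 ≠ 0 := by rwa [Polynomial.coeff_zero_eq_eval_zero]
  have h00 : θ.coeff 0 = 0 := by rwa [Polynomial.coeff_zero_eq_eval_zero]
  have key : ∀ n, θ.coeff n = 0 := by
    intro n
    induction n using Nat.strong_induction_on with
    | _ n ih =>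
      rcases n with _ | n
      · exact h00
      · have h1 := congrArg (fun p => Polynomial.coeff p n) h
        simp only [Polynomial.coeff_mul] at h1
        have h2 : ∑ z ∈ Finset.HasAntidiagonal.antidiagonal n, (Polynomial.derivative g).coeff z.1 * θ.coeff z.2 = 0 := by
          apply Finset.sum_eq_zero
          intro z hz
          rw [Finset.HasAntidiagonal.mem_antidiagonal] at hz
          rw [ih z.2 (by omega), mul_zero]
        have h3 : ∑ z ∈ Finset.HasAntidiagonal.antidiagonal n, g.coeff z.1 * (Polynomial.derivative θ).coeff z.2 =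
            g.coeff 0 * (Polynomial.derivative θ).coeff n := by
          rw [Finset.sum_eq_single (0, n)]
          · intro z hz hz2
            rw [Finset.HasAntidiagonal.mem_antidiagonal] at hz
            have : z.2 < n := by
              rcases Nat.lt_or_ge z.2 n with h | h
              · exact h
              · exfalso
                apply hz2
                ext <;> simp <;> omega
            rw [Polynomial.coeff_derivative, ih (z.2 + 1) (by omega), zero_mul, mul_zero]
          · intro hz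
            exfalso
            apply hz
            simp
        rw [h2, h3, Polynomial.coeff_derivative] at h1
        have h4 : ((n : ℂ) + 1) ≠ 0 := by exact_mod_cast Nat.succ_ne_zero n
        rcases mul_eq_zero.mp h1 with h5 | h5
        · exact absurd h5 hg0
        · rcases mul_eq_zero.mp h5 with h6 | h6
          · exact h6
          · exact absurd h6 h4
  ext n
  simpa using key n

lemma line_eq (c : MvPolynomial (Fin 3) ℂ) (r : Fin 3 → MvPolynomial (Fin 3) ℂ)
    (h : inx c * nab (∑ j, inx (r j) * vy j) = nab (inx c) * (∑ j, inx (r j) * vy j))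
    (x x' : Fin 3 → ℂ) (hx : eval x c ≠ 0) :
    eval x c * ∑ j, eval x' (r j) * (x' j - x j) = eval x' c * ∑ j, eval x (r j) * (x' j - x j) := by
  set y : Fin 3 → ℂ := fun j => x' j - x j with hy
  set g := evx x y c with hg
  set ψ := ∑ j, evx x y (r j) * Polynomial.C (y j) with hψ
  have e1 : ev x y (∑ j, inx (r j) * vy j) = ψ := by
    rw [map_sum, hψ]
    apply Finset.sum_congr rfl
    intro j _
    rw [map_mul, ev_inx, ev_vy]
  have h1 : g * Polynomial.derivative ψ = Polynomial.derivative g * ψ := by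
    have h2 := congrArg (ev x y) h
    rw [map_mul, map_mul, ← derivative_ev, ← derivative_ev, ev_inx, e1] at h2
    exact h2
  have x0 : (fun i => x i + (0 : ℂ) * y i) = x := by
    funext i; simp
  have x1 : (fun i => x i + (1 : ℂ) * y i) = x' := by
    funext i; simp [hy]
  have g0 : g.eval 0 = eval x c := by rw [hg, eval_evx, x0]
  have g1 : g.eval 1 = eval x' c := by rw [hg, eval_evx, x1]
  have p0 : ψ.eval 0 = ∑ j, eval x (r j) * y j := by
    rw [hψ, Polynomial.eval_finsetSum]
    apply Finset.sum_congr rfl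
    intro j _
    rw [Polynomial.eval_mul, Polynomial.eval_C, eval_evx, x0]
  have p1 : ψ.eval 1 = ∑ j, eval x' (r j) * y j := by
    rw [hψ, Polynomial.eval_finsetSum]
    apply Finset.sum_congr rfl
    intro j _
    rw [Polynomial.eval_mul, Polynomial.eval_C, eval_evx, x1]
  have hθ : Polynomial.C (g.eval 0) * ψ - Polynomial.C (ψ.eval 0) * g = 0 := by
    apply wr_zero g _ (by rw [g0]; exact hx)
    · simp [mul_comm]
    · simp only [Polynomial.derivative_sub, Polynomial.derivative_mul, Polynomial.derivative_C,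
        zero_mul, zero_add]
      linear_combination (Polynomial.C (g.eval 0)) * h1
  have h3 := congrArg (fun p => Polynomial.eval 1 p) hθ
  simp only [Polynomial.eval_sub, Polynomial.eval_mul, Polynomial.eval_C, Polynomial.eval_zero] at h3
  rw [g0, g1, p0, p1] at h3
  linear_combination h3

/-- Killing fields of finite form are affine with antisymmetric linear part. -/
lemma killing (U : Set (Fin 3 → ℂ)) (ρ : (Fin 3 → ℂ) → Fin 3 → ℂ)
    (key : ∀ x ∈ U, ∀ x' ∈ U, ∑ j, (ρ x j - ρ x' j) * (x j - x' j) = 0)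
    (a : Fin 3 → ℂ) (ha : a ∈ U) (s : ℂ) (hs0 : s ≠ 0) (q : Fin 3 → Fin 3 → ℂ)
    (hq : ∀ k j, q k j = a j + if j = k then s else 0) (hs : ∀ k : Fin 3, q k ∈ U) :
    ∃ (d : Fin 3 → ℂ) (M : Fin 3 → Fin 3 → ℂ), (∀ k j, M k j = - M j k) ∧
      ∀ x ∈ U, ∀ k, ρ x k = d k + ∑ j, M k j * x j := by
  obtain ⟨M, hM⟩ : ∃ M : Fin 3 → Fin 3 → ℂ, ∀ k j, M k j = - s⁻¹ * (ρ (q k) j - ρ a j) :=
    ⟨fun k j => - s⁻¹ * (ρ (q k) j - ρ a j), fun _ _ => rfl⟩
  have hsing : ∀ (k : Fin 3) (f : Fin 3 → ℂ), ∑ j, f j * (if j = k then s else 0) = s * f k := by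
    intro k f
    rw [Finset.sum_eq_single k]
    · simp [mul_comm]
    · intro b _ hb
      simp [hb]
    · simp
  have haff : ∀ x ∈ U, ∀ k, ρ x k = ρ (q k) k + ∑ j, M k j * (x j - a j) := by
    intro x hx k
    have h1 := key x hx a ha
    have h2 := key x hx (q k) (hs k)
    have h3 : ∑ j, M k j * (x j - a j) =
        - s⁻¹ * ∑ j, (ρ (q k) j - ρ a j) * (x j - a j) := by
      rw [Finset.mul_sum]
      apply Finset.sum_congr rfl
      intro j _
      rw [hM]
      ring
    have h4 : ∑ j, (ρ x j - ρ (q k) j) * (x j - q k j) =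
        ∑ j, (ρ x j - ρ (q k) j) * (x j - a j) - s * (ρ x k - ρ (q k) k) := by
      rw [← hsing k (fun j => ρ x j - ρ (q k) j), ← Finset.sum_sub_distrib]
      apply Finset.sum_congr rfl
      intro j _
      rw [hq k j]
      ring
    have h5 : ∑ j, (ρ x j - ρ (q k) j) * (x j - a j) =
        ∑ j, (ρ x j - ρ a j) * (x j - a j) - ∑ j, (ρ (q k) j - ρ a j) * (x j - a j) := by
      rw [← Finset.sum_sub_distrib]
      apply Finset.sum_congr rfl
      intro j _
      ring
    rw [h4, h5, h1] at h2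
    rw [h3]
    have h6 : s * (ρ x k - ρ (q k) k) = - ∑ j, (ρ (q k) j - ρ a j) * (x j - a j) := by
      linear_combination - h2
    have h7 : ρ x k - ρ (q k) k = - s⁻¹ * ∑ j, (ρ (q k) j - ρ a j) * (x j - a j) := by
      have : s⁻¹ * (s * (ρ x k - ρ (q k) k)) = ρ x k - ρ (q k) k := by
        rw [← mul_assoc, inv_mul_cancel₀ hs0, one_mul]
      rw [← this, h6]
      ring
    linear_combination h7
  have hcol : ∀ k j, ρ (q k) j - ρ a j = s * M j k := by
    intro k j
    have h1 := haff (q k) (hs k) j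
    have h2 := haff a ha j
    have h3 : ∑ i, M j i * (a i - a i) = 0 := by simp
    have h4 : ∑ i, M j i * (q k i - a i) = s * M j k := by
      rw [← hsing k (fun i => M j i)]
      apply Finset.sum_congr rfl
      intro i _
      rw [hq k i]
      ring
    rw [h3] at h2
    rw [h4] at h1
    linear_combination h1 - h2
  have hanti : ∀ k j, M k j = - M j k := by
    intro k j
    rw [hM k j, hcol k j]
    field_simp
  refine ⟨fun k => ρ (q k) k - ∑ j, M k j * a j, M, hanti, ?_⟩
  intro x hx k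
  rw [haff x hx k]
  simp only [mul_sub, Finset.sum_sub_distrib]
  ring

lemma final_alg (c : SA) (d : Fin 3 → ℂ) (M : Fin 3 → Fin 3 → ℂ) (hanti : ∀ k j, M k j = - M j k) :
    ∑ j, (c * (C (d j) + ∑ i, C (M j i) * X (Sum.inl i))) * vy j =
      c * ∑ I, C ((![M 1 0, M 2 0, - d 0, M 2 1, - d 1, - d 2] : Fin 6 → ℂ) I) * gp I := by
  have m00 : M 0 0 = 0 := by
    have := hanti 0 0
    linear_combination (1 / 2) * this
  have m11 : M 1 1 = 0 := by
    have := hanti 1 1
    linear_combination (1 / 2) * this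
  have m22 : M 2 2 = 0 := by
    have := hanti 2 2
    linear_combination (1 / 2) * this
  have m01 := hanti 0 1
  have m02 := hanti 0 2
  have m12 := hanti 1 2
  have g0 : gp 0 = X (Sum.inl 0) * X (Sum.inr 1) - X (Sum.inl 1) * X (Sum.inr 0) := rfl
  have g1 : gp 1 = X (Sum.inl 0) * X (Sum.inr 2) - X (Sum.inl 2) * X (Sum.inr 0) := rfl
  have g2 : gp 2 = X (Sum.inl 0) * 0 - 1 * X (Sum.inr 0) := rfl
  have g3 : gp 3 = X (Sum.inl 1) * X (Sum.inr 2) - X (Sum.inl 2) * X (Sum.inr 1) := rfl
  have g4 : gp 4 = X (Sum.inl 1) * 0 - 1 * X (Sum.inr 1) := rfl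
  have g5 : gp 5 = X (Sum.inl 2) * 0 - 1 * X (Sum.inr 2) := rfl
  simp only [Fin.sum_univ_three, Fin.sum_univ_six, m00, m11, m22, m01, m02, m12, g0, g1, g2, g3, g4,
    g5, vy, Matrix.cons_val, map_zero, map_neg]
  generalize (C (d 0) : SA) = d0
  generalize (C (d 1) : SA) = d1
  generalize (C (d 2) : SA) = d2
  generalize (C (M 1 0) : SA) = m10
  generalize (C (M 2 0) : SA) = m20
  generalize (C (M 2 1) : SA) = m21
  ring

lemma exists_pt (c : MvPolynomial (Fin 3) ℂ) (hc : c ≠ 0) : ∃ a : Fin 3 → ℂ, eval a c ≠ 0 := by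
  by_contra hcon
  push Not at hcon
  apply hc
  apply MvPolynomial.funext
  intro x
  rw [hcon x, map_zero]

/-- The point `a` moved by `s` in the direction `k`. -/
def mv (a : Fin 3 → ℂ) (k : Fin 3) (s : ℂ) : Fin 3 → ℂ := fun j => a j + if j = k then s else 0

lemma exists_s (c : MvPolynomial (Fin 3) ℂ) (a : Fin 3 → ℂ) (ha : eval a c ≠ 0) :
    ∃ s : ℂ, s ≠ 0 ∧ ∀ k : Fin 3, eval (mv a k s) c ≠ 0 := by
  have hcont : ∀ k : Fin 3, Continuous (fun s : ℂ => eval (mv a k s) c) := by
    intro k
    apply (MvPolynomial.continuous_eval c).comp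
    apply continuous_pi
    intro j
    unfold mv
    by_cases hj : j = k
    · simp only [hj, if_true]
      fun_prop
    · simp only [hj, if_false]
      fun_prop
  have hev : ∀ k : Fin 3, ∀ᶠ s in nhdsWithin (0 : ℂ) {0}ᶜ, eval (mv a k s) c ≠ 0 := by
    intro k
    apply Filter.Eventually.filter_mono nhdsWithin_le_nhds
    apply (hcont k).continuousAt.eventually_ne
    have : mv a k 0 = a := by
      funext j; simp [mv]
    rw [this]
    exact ha
  have hev2 : ∀ᶠ s in nhdsWithin (0 : ℂ) {0}ᶜ, ∀ k : Fin 3, eval (mv a k s) c ≠ 0 :=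
    Filter.eventually_all.mpr hev
  have hev3 : ∀ᶠ s in nhdsWithin (0 : ℂ) {0}ᶜ, s ≠ 0 := by
    filter_upwards [self_mem_nhdsWithin] with s hs
    simpa using hs
  obtain ⟨s, h1, h2⟩ := (hev3.and hev2).exists
  exact ⟨s, h1, h2⟩

lemma r_eq (c : MvPolynomial (Fin 3) ℂ) (r : Fin 3 → MvPolynomial (Fin 3) ℂ) (hc : c ≠ 0)
    (ρ : (Fin 3 → ℂ) → Fin 3 → ℂ) (hρ : ∀ x j, ρ x j = eval x (r j) / eval x c)
    (d : Fin 3 → ℂ) (M : Fin 3 → Fin 3 → ℂ)
    (haff : ∀ x, eval x c ≠ 0 → ∀ k, ρ x k = d k + ∑ j, M k j * x j) (k : Fin 3) :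
    r k = c * (C (d k) + ∑ j, C (M k j) * X j) := by
  have h1 : (r k - c * (C (d k) + ∑ j, C (M k j) * X j)) * c = 0 := by
    apply MvPolynomial.funext
    intro x
    rw [map_zero, map_mul]
    by_cases hx : eval x c = 0
    · rw [hx, mul_zero]
    · have h2 := haff x hx k
      have h3 : eval x (r k) = eval x c * ρ x k := by
        rw [hρ, mul_div_cancel₀ _ hx]
      have h5 : eval x (r k - c * (C (d k) + ∑ j, C (M k j) * X j)) = 0 := by
        simp only [map_sub, map_mul, map_add, map_sum, eval_C, eval_X]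
        rw [h3, h2]
        ring
      rw [h5, zero_mul]
  rcases mul_eq_zero.mp h1 with h2 | h2
  · exact sub_eq_zero.mp h2
  · exact absurd h2 hc

lemma inx_eq (c : MvPolynomial (Fin 3) ℂ) (d : ℂ) (M : Fin 3 → ℂ) :
    inx (c * (C d + ∑ j, C (M j) * X j)) = inx c * (C d + ∑ j, C (M j) * X (Sum.inl j)) := by
  simp only [inx, map_mul, map_add, map_sum, rename_C, rename_X]

lemma key_eq (c : MvPolynomial (Fin 3) ℂ) (r : Fin 3 → MvPolynomial (Fin 3) ℂ)
    (ρ : (Fin 3 → ℂ) → Fin 3 → ℂ) (hρ : ∀ x j, ρ x j = eval x (r j) / eval x c)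
    (x x' : Fin 3 → ℂ) (hx : eval x c ≠ 0) (hx' : eval x' c ≠ 0)
    (h1 : eval x c * ∑ j, eval x' (r j) * (x' j - x j) =
      eval x' c * ∑ j, eval x (r j) * (x' j - x j)) :
    ∑ j, (ρ x j - ρ x' j) * (x j - x' j) = 0 := by
  have e1 : ∀ j, eval x (r j) = eval x c * ρ x j := by
    intro j
    rw [hρ, mul_div_cancel₀ _ hx]
  have e2 : ∀ j, eval x' (r j) = eval x' c * ρ x' j := by
    intro j
    rw [hρ, mul_div_cancel₀ _ hx']
  have h2 : eval x c * eval x' c * ∑ j, (ρ x j - ρ x' j) * (x j - x' j) = 0 := by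
    simp only [e1, e2, Fin.sum_univ_three] at h1 ⊢
    linear_combination h1
  rcases mul_eq_zero.mp h2 with h3 | h3
  · exact absurd h3 (mul_ne_zero hx hx')
  · exact h3

theorem t_N4 : S_N4 := by
  unfold S_N4
  intro c r hc h
  obtain ⟨a, ha⟩ := exists_pt c hc
  obtain ⟨s, hs0, hs⟩ := exists_s c a ha
  obtain ⟨ρ, hρ⟩ : ∃ ρ : (Fin 3 → ℂ) → Fin 3 → ℂ, ∀ x j, ρ x j = eval x (r j) / eval x c :=
    ⟨fun x j => eval x (r j) / eval x c, fun _ _ => rfl⟩
  have key : ∀ x ∈ {x | eval x c ≠ 0}, ∀ x' ∈ {x | eval x c ≠ 0},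
      ∑ j, (ρ x j - ρ x' j) * (x j - x' j) = 0 :=
    fun x hx x' hx' => key_eq c r ρ hρ x x' hx hx' (line_eq c r h x x' hx)
  obtain ⟨d, M, hanti, haff⟩ := killing {x | eval x c ≠ 0} ρ key a ha s hs0
    (fun k => mv a k s) (fun k j => rfl) hs
  have hr : ∀ k, r k = c * (C (d k) + ∑ j, C (M k j) * X j) :=
    fun k => r_eq c r hc ρ hρ d M haff k
  refine ⟨![M 1 0, M 2 0, - d 0, M 2 1, - d 1, - d 2], ?_⟩
  rw [← final_alg (inx c) d M hanti]
  apply Finset.sum_congr rfl
  intro j _
  rw [hr j, inx_eq]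

end Pool.Agent.H267.ZL
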